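import Pool.Agent.H960R3.DL3

/-!
# A T₁ discretely Lindelöf space that is not weakly Lindelöf

ZFC counterexample for Q1 of MP_8c175f_gt.
-/

set_option autoImplicit false

namespace Pool.Agent.Results.MP_8c175f_gt.DiscretelyLindelofNotWeakly

theorem result :
    ∃ (X : Type) (_ : TopologicalSpace X), T1Space X ∧
      (∀ D : Set X, DiscreteTopology D → LindelofSpace (closure D)) ∧
      ∃ 𝒰 : Set (Set X), (∀ U ∈ 𝒰, IsOpen U) ∧ ⋃₀ 𝒰 = Set.univ ∧
        ∀ 𝒱 ⊆ 𝒰, 𝒱.Countable → ¬ Dense (⋃₀ 𝒱) :=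
  Pool.Agent.H960R3.DL.exists_space

end Pool.Agent.Results.MP_8c175f_gt.DiscretelyLindelofNotWeakly
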